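import Mathlib
import Pool.Agent.KS6_25.BK.Core

/-!
# Sharp `L² → L^{2k}` extension inequalities for all `B_k`-sets, and for the moment curve for all
`k` up to the dimension

A family `v` of `q` points of a finite abelian group `G` is a `B_k`-set if the sums of `k` points are
different, up to the order of the summands. We determine the best constant of the extension
inequality from `L²(v)` to `L^{2k}` of the dual group, and all maximizers, for every `B_k`-set, and
show that the `B_k`-sets are exactly the sets of `q` points with the least possible constant. The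
moment curve `(t, t², …, t^d)` over a finite field of characteristic `p` is a `B_k`-set for all
`k ≤ d`, `k < p`; the question is the case `k = d`.

Proof: the sharp inequality for `∑ (k!/m!)² a^m` of the starting library
(`Pool.Agent.R246.MomentA.Phi_le`), which does not depend on the group.
-/

namespace Pool.Agent.Results.MP_110370_an.SharpForBkSets

open Finset Pool.Agent.R246.MomentA Pool.Agent.R246.MomentB Pool.Agent.R246.MomentC
open Pool.Agent.KS6_25.BK

noncomputable section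

/-! ### Finite abelian groups -/

/-- The family `v` of points of the abelian group `G` is a `B_k`-set: if `m` and `m'` are two
choices of `k` of the points (`m t` is the multiplicity of `v t`) with the same sum then
`m = m'`. -/
def IsBk {ι G : Type*} [Fintype ι] [AddCommGroup G] (k : ℕ) (v : ι → G) : Prop :=
  ∀ m m' : ι → ℕ, ∑ t, m t = k → ∑ t, m' t = k → ∑ t, m t • v t = ∑ t, m' t • v t → m = m'

/-- The extension of the function `f` on the family `v` of points of `G` to the dual group of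
`G`: the function `χ ↦ ∑ f(t) χ(v(t))`. -/
def ext {ι G : Type*} [Fintype ι] [AddCommGroup G] (v : ι → G) (f : ι → ℂ) (χ : AddChar G ℂ) : ℂ :=
  ∑ t, f t * χ (v t)

/-- The norm of the extension in `L^{2k}` of the dual group (counting measure). -/
def norm2k {ι G : Type*} [Fintype ι] [AddCommGroup G] [Finite G] (k : ℕ) (v : ι → G)
    (f : ι → ℂ) : ℝ :=
  (∑ χ : AddChar G ℂ, ‖ext v f χ‖ ^ (2 * k)) ^ (1 / (2 * k) : ℝ)

/-- The norm of `f` in `L²` (counting measure). -/
def l2 {ι : Type*} [Fintype ι] (f : ι → ℂ) : ℝ := (∑ t, ‖f t‖ ^ 2) ^ (1 / 2 : ℝ)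

/-- The constant `(N q^{-k} ∑ (k! / m!)²)^{1/(2k)}`; the sum is over all `m : {1, …, q} → ℕ` of
sum `k`, and `k! / m!` is the multinomial coefficient. -/
def best (k q N : ℕ) : ℝ :=
  (N * (∑ m ∈ piAntidiag (univ : Finset (Fin q)) k, (Nat.multinomial univ m : ℝ) ^ 2) / q ^ k) ^
    (1 / (2 * k) : ℝ)

/-! ### The moment curve -/

/-- The character `e(y) = exp(2 π i Tr(y) / p)` of the finite field `F` of characteristic `p`. -/
def ee (p : ℕ) [Fact p.Prime] {F : Type*} [Field F] [Algebra (ZMod p) F] (y : F) : ℂ :=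
  Complex.exp (2 * Real.pi * Complex.I * ((Algebra.trace (ZMod p) F y).val : ℂ) / p)

/-- The extension operator of the moment curve,
`(f σ)^∨ (x) = q⁻¹ ∑_t f(t) e(x₁ t + x₂ t² + … + x_d t^d)`; functions on the curve
`{(t, t², …, t^d)}` are written as functions of the parameter `t`. -/
def extn (p : ℕ) [Fact p.Prime] {F : Type*} [Field F] [Fintype F] [Algebra (ZMod p) F] {d : ℕ}
    (f : F → ℂ) (x : Fin d → F) : ℂ :=
  1 / (Fintype.card F : ℂ) * ∑ t, f t * ee p (∑ i : Fin d, x i * t ^ ((i : ℕ) + 1))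

/-- `‖(f σ)^∨‖_{L^{2k}}` (counting measure on `F^d`) -/
def normExt (p : ℕ) [Fact p.Prime] {F : Type*} [Field F] [Fintype F] [Algebra (ZMod p) F]
    (d k : ℕ) (f : F → ℂ) : ℝ :=
  (∑ x : Fin d → F, ‖extn p f x‖ ^ (2 * k)) ^ (1 / (2 * k) : ℝ)

/-- `‖f‖_{L²(σ)}` (normalised counting measure) -/
def normL2 {F : Type*} [Fintype F] (f : F → ℂ) : ℝ :=
  (1 / (Fintype.card F : ℝ) * ∑ t, ‖f t‖ ^ 2) ^ (1 / 2 : ℝ)

/-- The constant `C_{d,k,q}`. Here `Pd k` is the set of the `l : {1, …, k} → ℕ` with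
`l₁ ≥ … ≥ l_k` and sum `k`, and `bj q l j` is the number of `i` with `lᵢ = j`, plus `q - k` if
`j = 0`. For `k = d` this is the constant `C_{d,q}` of the problem. -/
def Cdkq (d k q : ℕ) : ℝ :=
  ((q : ℝ) ^ d / (q : ℝ) ^ (2 * k) *
    ∑ l ∈ Pd k, ((k.factorial : ℝ) / ∏ i, ((l i).factorial : ℝ)) ^ 2 *
    ((q.factorial : ℝ) / ∏ j ∈ range (k + 1), ((bj q l j).factorial : ℝ))) ^ (1 / (2 * k) : ℝ)

/-! ### Proofs -/

lemma rpow_half_pow {a : ℝ} (ha : 0 ≤ a) {k : ℕ} (hk : 0 < k) :
    a ^ (1 / 2 : ℝ) = (a ^ k) ^ (1 / (2 * k) : ℝ) := by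
  rw [← Real.rpow_natCast, ← Real.rpow_mul ha]
  congr 1
  have : (k : ℝ) ≠ 0 := by positivity
  field_simp

lemma Phi_card {A : Type*} [Fintype A] [DecidableEq A] {d : ℕ} : Phi d (fun _ : A => (1 : ℝ)) =
    Phi d (fun _ : Fin (Fintype.card A) => (1 : ℝ)) := by
  rw [Phi_eq, Phi_eq]
  simp

lemma Phi_one (k q : ℕ) : ∑ m ∈ piAntidiag (univ : Finset (Fin q)) k,
    (Nat.multinomial univ m : ℝ) ^ 2 =
    (k.factorial : ℝ) ^ 2 * Phi k (fun _ : Fin q => (1 : ℝ)) := by
  have h := multinomial_sq (ι := Fin q) k (fun _ => 1)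
  simpa using h

lemma Phi_nonneg {ι : Type*} [Fintype ι] [DecidableEq ι] (k : ℕ) (a : ι → ℝ)
    (ha : ∀ t, 0 ≤ a t) : 0 ≤ Phi k a := by
  unfold Phi
  refine Finset.sum_nonneg fun m _ => Finset.prod_nonneg fun t _ => ?_
  have := ha t
  positivity

/-- comparison of the two sides -/
lemma compare {ι : Type*} [Fintype ι] [DecidableEq ι] [Nonempty ι] {k : ℕ} (hk : 2 ≤ k)
    (f : ι → ℂ) {c : ℝ} (hc : 0 < c) :
    (c * ((k.factorial : ℝ) ^ 2 * Phi k (fun t => ‖f t‖ ^ 2))) ^ (1 / (2 * k) : ℝ) ≤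
      (c * ((k.factorial : ℝ) ^ 2 * Phi k (fun _ : ι => (1 : ℝ))) *
        ((∑ t, ‖f t‖ ^ 2) / Fintype.card ι) ^ k) ^ (1 / (2 * k) : ℝ) ∧
    ((c * ((k.factorial : ℝ) ^ 2 * Phi k (fun t => ‖f t‖ ^ 2))) ^ (1 / (2 * k) : ℝ) =
      (c * ((k.factorial : ℝ) ^ 2 * Phi k (fun _ : ι => (1 : ℝ))) *
        ((∑ t, ‖f t‖ ^ 2) / Fintype.card ι) ^ k) ^ (1 / (2 * k) : ℝ) ↔
      ∀ s t, ‖f s‖ = ‖f t‖) := by
  have h1 : 0 ≤ Phi k (fun t => ‖f t‖ ^ 2) := Phi_nonneg _ _ fun t => by positivity
  have h2 : 0 ≤ Phi k (fun _ : ι => (1 : ℝ)) := Phi_nonneg _ _ fun _ => zero_le_one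
  have hexp : (0 : ℝ) < 1 / (2 * k) := by positivity
  have hk! : (0 : ℝ) < (k.factorial : ℝ) ^ 2 := by
    have : (0 : ℝ) < k.factorial := by exact_mod_cast k.factorial_pos
    positivity
  have e1 : c * ((k.factorial : ℝ) ^ 2 * Phi k (fun t => ‖f t‖ ^ 2)) =
      (c * (k.factorial : ℝ) ^ 2) * Phi k (fun t => ‖f t‖ ^ 2) := by ring
  have e2 : c * ((k.factorial : ℝ) ^ 2 * Phi k (fun _ : ι => (1 : ℝ))) *
        ((∑ t, ‖f t‖ ^ 2) / Fintype.card ι) ^ k = (c * (k.factorial : ℝ) ^ 2) *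
        (((∑ t, ‖f t‖ ^ 2) / Fintype.card ι) ^ k * Phi k (fun _ : ι => (1 : ℝ))) := by ring
  rw [e1, e2]
  have hcf : 0 < c * (k.factorial : ℝ) ^ 2 := by positivity
  refine ⟨Real.rpow_le_rpow (by positivity)
    (mul_le_mul_of_nonneg_left (opt hk f).1 hcf.le) hexp.le, ?_⟩
  rw [Real.rpow_left_inj (by positivity) (by positivity) hexp.ne', mul_right_inj' hcf.ne']
  exact (opt hk f).2

section groups

variable {ι G : Type} [Fintype ι] [AddCommGroup G] [Finite G]

lemma hor_dual (g : G) (hg : g ≠ 0) : ∑ χ : AddChar G ℂ, χ g = 0 := by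
  classical
  have := Fintype.ofFinite G
  rw [AddChar.sum_apply_eq_ite, if_neg hg]

omit [AddCommGroup G] [Finite G] in
lemma best_l2 [DecidableEq ι] [Nonempty ι] {k : ℕ} (hk : 2 ≤ k) (f : ι → ℂ) :
    best k (Fintype.card ι) (Nat.card G) * l2 f =
      ((Nat.card G : ℝ) * ((k.factorial : ℝ) ^ 2 * Phi k (fun _ : ι => (1 : ℝ))) *
        ((∑ t, ‖f t‖ ^ 2) / Fintype.card ι) ^ k) ^ (1 / (2 * k) : ℝ) := by
  have h2 : 0 ≤ Phi k (fun _ : ι => (1 : ℝ)) := Phi_nonneg _ _ fun _ => zero_le_one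
  unfold best l2
  rw [Phi_one, ← Phi_card (A := ι), rpow_half_pow (by positivity) (show 0 < k by omega),
    ← Real.mul_rpow (by positivity) (by positivity)]
  congr 1
  rw [div_pow]
  ring

lemma card_dual : (Fintype.card (AddChar G ℂ) : ℝ) = Nat.card G := by
  have := Fintype.ofFinite G
  rw [AddChar.card_eq, Nat.card_eq_fintype_card]

end groups

section curve

variable {p : ℕ} [Fact p.Prime] {F : Type*} [Field F] [Fintype F] [Algebra (ZMod p) F]

/-- the character as an additive character -/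
def psi (p : ℕ) [Fact p.Prime] (F : Type*) [Field F] [Algebra (ZMod p) F] : AddChar F ℂ :=
  (ZMod.stdAddChar (N := p)).compAddMonoidHom (Algebra.trace (ZMod p) F).toAddMonoidHom

omit [Fintype F] in
lemma ee_eq (y : F) : ee p y = psi p F y := by
  unfold ee psi
  rw [AddChar.compAddMonoidHom_apply]
  have h := ZMod.stdAddChar_coe (N := p) ((Algebra.trace (ZMod p) F y).val : ℤ)
  have h2 : (((Algebra.trace (ZMod p) F y).val : ℤ) : ZMod p) = Algebra.trace (ZMod p) F y := by
    simp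
  rw [h2] at h
  have h3 : ZMod.stdAddChar ((Algebra.trace (ZMod p) F).toAddMonoidHom y) =
      ZMod.stdAddChar (Algebra.trace (ZMod p) F y) := rfl
  rw [h3, h]
  push_cast
  rfl

lemma psi_ne : psi p F ≠ 1 := by
  obtain ⟨y, hy⟩ := Algebra.trace_surjective (ZMod p) F 1
  rw [AddChar.ne_one_iff]
  refine ⟨y, ?_⟩
  intro h
  have h1 : ZMod.stdAddChar (Algebra.trace (ZMod p) F y) = (1 : ℂ) := h
  rw [hy, ← AddChar.map_zero_eq_one (ZMod.stdAddChar (N := p))] at h1
  have h2 := ZMod.injective_stdAddChar h1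
  exact one_ne_zero h2

lemma card_pos' : (0 : ℝ) < Fintype.card F := by exact_mod_cast Fintype.card_pos

lemma p_le_card : p ≤ Fintype.card F := by
  have hinj : Function.Injective (algebraMap (ZMod p) F) := (algebraMap (ZMod p) F).injective
  have := Fintype.card_le_of_injective _ hinj
  rwa [ZMod.card] at this

omit [Fintype F] in
lemma cast_ne {d : ℕ} (hd : d < p) : ∀ k : ℕ, 1 ≤ k → k ≤ d → (k : F) ≠ 0 := by
  intro k hk1 hk2 h
  have h1 : (algebraMap (ZMod p) F) (k : ZMod p) = 0 := by rw [map_natCast]; exact h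
  have h2 : (k : ZMod p) = 0 := (algebraMap (ZMod p) F).injective (by rw [h1, map_zero])
  rw [ZMod.natCast_eq_zero_iff] at h2
  have := Nat.le_of_dvd (by omega) h2
  omega

/-- the characters of `F^d` -/
def ch (p : ℕ) [Fact p.Prime] (F : Type*) [Field F] [Algebra (ZMod p) F] (d : ℕ)
    (x : Fin d → F) : AddChar (Fin d → F) ℂ where
  toFun g := psi p F (∑ i, x i * g i)
  map_zero_eq_one' := by simp
  map_add_eq_mul' := by
    intro a b
    rw [← AddChar.map_add_eq_mul]
    congr 1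
    rw [← Finset.sum_add_distrib]
    exact Finset.sum_congr rfl fun i _ => by rw [Pi.add_apply]; ring

lemma hor_ch {d : ℕ} (g : Fin d → F) (hg : g ≠ 0) : ∑ x : Fin d → F, ch p F d x g = 0 := by
  classical
  exact ortho (psi p F) psi_ne hg

/-- the moment curve is a `B_k`-set -/
lemma curve_isB [DecidableEq F] {d k : ℕ} (hkd : k ≤ d) (hkp : k < p) :
    IsB k (fun (t : F) (i : Fin d) => t ^ ((i : ℕ) + 1)) := by
  intro m m' hm hm' h
  refine vv_inj (d := k) (cast_ne hkp) hm hm' ?_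
  funext i
  have h1 := congrFun h (Fin.castLE hkd i)
  simp only [Finset.sum_apply, Pi.smul_apply, nsmul_eq_mul, Fin.val_castLE] at h1
  unfold vv
  exact h1

/-- the power sum of the extension -/
lemma sum_pow_ext [DecidableEq F] {d k : ℕ} (hkd : k ≤ d) (hkp : k < p) (f : F → ℂ) :
    ∑ x : Fin d → F, ‖extn p f x‖ ^ (2 * k) =
      ((Fintype.card F : ℝ) ^ d / (Fintype.card F : ℝ) ^ (2 * k)) *
        ((k.factorial : ℝ) ^ 2 * Phi k (fun t => ‖f t‖ ^ 2)) := by
  have h := moment_eq (ch p F d) hor_ch (curve_isB (F := F) hkd hkp) f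
  have h1 : ∀ x : Fin d → F, ‖extn p f x‖ ^ (2 * k) = ((Fintype.card F : ℝ) ^ (2 * k))⁻¹ *
      ‖∑ t, f t * ch p F d x (fun i : Fin d => t ^ ((i : ℕ) + 1))‖ ^ (2 * k) := by
    intro x
    unfold extn
    rw [norm_mul, mul_pow, norm_div, norm_one, Complex.norm_natCast, one_div, inv_pow]
    congr 3
    refine Finset.sum_congr rfl fun t _ => ?_
    rw [ee_eq]
    rfl
  simp_rw [h1]
  rw [← Finset.mul_sum, h, Fintype.card_fun, Fintype.card_fin]
  push_cast
  ring

/-- the constant -/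
lemma Cdkq_eq {d k q : ℕ} (hq : k ≤ q) : Cdkq d k q =
    ((q : ℝ) ^ d / (q : ℝ) ^ (2 * k) * ((k.factorial : ℝ) ^ 2 *
      Phi k (fun _ : Fin q => (1 : ℝ)))) ^ (1 / (2 * k) : ℝ) := by
  unfold Cdkq
  congr 2
  rw [count hq, Finset.mul_sum]
  refine Finset.sum_congr rfl fun l _ => ?_
  rw [← mul_assoc]
  congr 1
  rw [div_pow, ← Finset.prod_pow, div_eq_mul_inv]
  congr 1
  rw [← Finset.prod_inv_distrib]
  refine Finset.prod_congr rfl fun i _ => ?_
  rw [one_div]

lemma C_normL2 [DecidableEq F] {d k : ℕ} (hk : 2 ≤ k) (hkp : k < p) (f : F → ℂ) :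
    Cdkq d k (Fintype.card F) * normL2 f =
      (((Fintype.card F : ℝ) ^ d / (Fintype.card F : ℝ) ^ (2 * k)) *
        ((k.factorial : ℝ) ^ 2 * Phi k (fun _ : F => (1 : ℝ))) *
        ((∑ t, ‖f t‖ ^ 2) / Fintype.card F) ^ k) ^ (1 / (2 * k) : ℝ) := by
  have h2 : 0 ≤ Phi k (fun _ : F => (1 : ℝ)) := Phi_nonneg _ _ fun _ => zero_le_one
  have hk0 : k ≤ Fintype.card F := hkp.le.trans p_le_card
  unfold normL2
  rw [Cdkq_eq hk0, ← Phi_card (A := F), rpow_half_pow (by positivity) (show 0 < k by omega),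
    ← Real.mul_rpow (by positivity) (by positivity), one_div_mul_eq_div]

end curve

/-- **Main theorem.** (1) Let `k ≥ 2`, let `v` be a nonempty family of `q` points of a finite
abelian group `G` of order `N`, and let `C = best k q N`. (a) No smaller constant is possible:
`‖E f‖_{2k} ≥ C ‖f‖₂` for some `f ≠ 0`. (b) If `v` is a `B_k`-set then `‖E f‖_{2k} ≤ C ‖f‖₂` for all
`f`, with equality for a nonzero `f` if and only if `|f|` is constant. (c) If this inequality holds
for all `f` then `v` is a `B_k`-set. (2) For all `2 ≤ k ≤ d` and primes `p > k` and all finite fields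
of characteristic `p` the extension inequality from `L²` to `L^{2k}` holds for the moment curve in
dimension `d` with the constant `C_{d,k,q}`, it has a maximizer, and a nonzero `f` is a maximizer if
and only if `|f|` is constant. -/
theorem result :
    (∀ (k : ℕ), 2 ≤ k → ∀ (ι G : Type) [Fintype ι] [Nonempty ι] [AddCommGroup G] [Finite G]
      (v : ι → G),
      (∃ f : ι → ℂ, f ≠ 0 ∧ best k (Fintype.card ι) (Nat.card G) * l2 f ≤ norm2k k v f) ∧
      (IsBk k v →
        (∀ f : ι → ℂ, norm2k k v f ≤ best k (Fintype.card ι) (Nat.card G) * l2 f) ∧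
        ∀ f : ι → ℂ, f ≠ 0 → (norm2k k v f = best k (Fintype.card ι) (Nat.card G) * l2 f ↔
          ∀ s t, ‖f s‖ = ‖f t‖)) ∧
      ((∀ f : ι → ℂ, norm2k k v f ≤ best k (Fintype.card ι) (Nat.card G) * l2 f) →
        IsBk k v)) ∧
    (∀ (d k : ℕ), 2 ≤ k → k ≤ d → ∀ (p : ℕ) [Fact p.Prime], k < p → ∀ (F : Type) [Field F]
      [Fintype F] [Algebra (ZMod p) F],
      (∀ f : F → ℂ, normExt p d k f ≤ Cdkq d k (Fintype.card F) * normL2 f) ∧
      (∃ f : F → ℂ, f ≠ 0 ∧ normExt p d k f = Cdkq d k (Fintype.card F) * normL2 f) ∧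
      (∀ f : F → ℂ, f ≠ 0 → (normExt p d k f = Cdkq d k (Fintype.card F) * normL2 f ↔
        ∀ s t, ‖f s‖ = ‖f t‖))) := by
  classical
  constructor
  · intro k hk ι G _ _ _ _ v
    have hN : (0 : ℝ) < Nat.card G := by exact_mod_cast Nat.card_pos
    have hne1 : (fun _ : ι => (1 : ℂ)) ≠ 0 := by
      intro h
      have := congrFun h (Classical.arbitrary ι)
      simp at this
    have hexp : (0 : ℝ) < 1 / (2 * k) := by positivity
    have hB : IsBk k v → (∀ f : ι → ℂ, norm2k k v f =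
        ((Nat.card G : ℝ) * ((k.factorial : ℝ) ^ 2 * Phi k (fun t => ‖f t‖ ^ 2))) ^
          (1 / (2 * k) : ℝ)) := by
      intro hv f
      unfold norm2k ext
      rw [moment_eq (X := AddChar G ℂ) (fun χ => χ) hor_dual hv f, card_dual]
    have hnot : ¬ IsBk k v → best k (Fintype.card ι) (Nat.card G) * l2 (fun _ : ι => (1 : ℂ)) <
        norm2k k v (fun _ => 1) := by
      intro hv
      rw [best_l2 hk]
      have h2 : 0 ≤ Phi k (fun _ : ι => (1 : ℝ)) := Phi_nonneg _ _ fun _ => zero_le_one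
      have h3 := moment_one (X := AddChar G ℂ) (fun χ => χ) hor_dual v k hv
      rw [card_dual] at h3
      have hq : (0 : ℝ) < Fintype.card ι := by exact_mod_cast Fintype.card_pos
      have e : (∑ t : ι, ‖(1 : ℂ)‖ ^ 2) / (Fintype.card ι : ℝ) = 1 := by
        rw [norm_one, one_pow, Finset.sum_const, card_univ, nsmul_eq_mul, mul_one,
          div_self hq.ne']
      rw [e, one_pow, mul_one]
      unfold norm2k ext
      simp only [one_mul]
      exact Real.rpow_lt_rpow (by positivity) h3 hexp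
    have hyes : IsBk k v →
        (∀ f : ι → ℂ, norm2k k v f ≤ best k (Fintype.card ι) (Nat.card G) * l2 f) ∧
        ∀ f : ι → ℂ, f ≠ 0 → (norm2k k v f = best k (Fintype.card ι) (Nat.card G) * l2 f ↔
          ∀ s t, ‖f s‖ = ‖f t‖) := by
      intro hv
      refine ⟨fun f => ?_, fun f _ => ?_⟩
      · rw [hB hv, best_l2 hk]
        exact (compare hk f hN).1
      · rw [hB hv, best_l2 hk]
        exact (compare hk f hN).2
    refine ⟨⟨fun _ => 1, hne1, ?_⟩, hyes, ?_⟩
    · by_cases hv : IsBk k v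
      · exact (((hyes hv).2 _ hne1).2 fun _ _ => rfl).ge
      · exact (hnot hv).le
    · intro h
      by_contra hv
      exact absurd (h fun _ => 1) (not_le.2 (hnot hv))
  · intro d k hk hkd p _ hkp F _ _ _
    have hq0 : (0 : ℝ) < Fintype.card F := card_pos'
    have hc : (0 : ℝ) < (Fintype.card F : ℝ) ^ d / (Fintype.card F : ℝ) ^ (2 * k) := by
      positivity
    have hX : ∀ f : F → ℂ, normExt p d k f =
        (((Fintype.card F : ℝ) ^ d / (Fintype.card F : ℝ) ^ (2 * k)) *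
        ((k.factorial : ℝ) ^ 2 * Phi k (fun t => ‖f t‖ ^ 2))) ^ (1 / (2 * k) : ℝ) := by
      intro f
      unfold normExt
      rw [sum_pow_ext hkd hkp f]
    have h3 : ∀ f : F → ℂ, f ≠ 0 → (normExt p d k f = Cdkq d k (Fintype.card F) * normL2 f ↔
        ∀ s t, ‖f s‖ = ‖f t‖) := by
      intro f _
      rw [hX, C_normL2 hk hkp]
      exact (compare hk f hc).2
    refine ⟨fun f => ?_, ⟨fun _ => 1, ?_, ?_⟩, h3⟩
    · rw [hX, C_normL2 hk hkp]
      exact (compare hk f hc).1
    · intro h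
      have := congrFun h 0
      simp at this
    · refine (h3 _ ?_).2 fun _ _ => rfl
      intro h
      have := congrFun h 0
      simp at this

end

end Pool.Agent.Results.MP_110370_an.SharpForBkSets
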